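import Mathlib
import Pool.Agent.W31.LD.Defs

set_option autoImplicit false

namespace Pool.Agent.W348.LD

open W31LD

theorem size_eq (w i : ℕ) (h1 : w.testBit i = true) (h2 : ∀ j, i < j → w.testBit j = false) :
    Nat.size w = i + 1 := by
  apply le_antisymm
  · rw [Nat.size_le]
    exact Nat.lt_pow_two_of_testBit w (fun j hj => h2 j (by omega))
  · by_contra hcon
    have h3 : Nat.size w ≤ i := by omega
    rw [Nat.size_le] at h3
    rw [Nat.testBit_lt_two_pow h3] at h1
    exact absurd h1 (by simp)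

theorem bit_of_lt (x y : ℕ) (h : x < y) : ∃ i, dst x y = i + 1 ∧ x.testBit i = false ∧
    y.testBit i = true := by
  have hne : x ^^^ y ≠ 0 := by
    intro h0
    rw [Nat.xor_eq_zero_iff] at h0
    omega
  obtain ⟨i, hi, hj⟩ := Nat.exists_most_significant_bit hne
  refine ⟨i, size_eq _ i hi hj, ?_⟩
  rw [Nat.testBit_xor] at hi
  have hj' : ∀ j, i < j → x.testBit j = y.testBit j := by
    intro j hij
    have := hj j hij
    rw [Nat.testBit_xor] at this
    cases hx : x.testBit j <;> cases hy : y.testBit j <;> simp_all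
  cases hx : x.testBit i <;> cases hy : y.testBit i
  · simp_all
  · exact ⟨rfl, rfl⟩
  · have := Nat.lt_of_testBit i hy hx (fun j hij => (hj' j hij).symm)
    omega
  · simp_all

theorem done : T_Bits := by
  refine ⟨?_, ?_, ?_, ?_, ?_, ?_⟩
  · intro x y
    rw [dst, dst, Nat.xor_comm]
  · intro x
    rw [dst, Nat.xor_self, Nat.size_zero]
  · intro x y h
    rw [dst, Nat.size_pos]
    apply Nat.pos_of_ne_zero
    intro h0
    rw [Nat.xor_eq_zero_iff] at h0
    exact h h0
  · intro x y z
    have h1 : x ^^^ z = (x ^^^ y) ^^^ (y ^^^ z) := by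
      rw [Nat.xor_assoc, ← Nat.xor_assoc y y z, Nat.xor_self, Nat.zero_xor]
    rw [dst, h1, Nat.size_le]
    apply Nat.xor_lt_two_pow
    · rw [← Nat.size_le]
      exact le_max_left _ _
    · rw [← Nat.size_le]
      exact le_max_right _ _
  · intro x y z hxy hyz h
    obtain ⟨i, h1, h2, h3⟩ := bit_of_lt x y hxy
    obtain ⟨j, h4, h5, h6⟩ := bit_of_lt y z hyz
    have hij : i = j := by omega
    subst hij
    rw [h3] at h5
    exact absurd h5 (by simp)
  · intro m x y hx hy
    rw [dst, Nat.size_le]
    exact Nat.xor_lt_two_pow hx hy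

end Pool.Agent.W348.LD
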